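import Pool.Agent.H88.CM.Targets

/-! Closing lemma on compact manifolds, row STRM. -/

open Set Function Topology Metric Filter
open scoped Manifold

open Pool.Agent.H88.CL Pool.Agent.H88.CM

namespace Pool.Agent.H81.CM

theorem pf_STRM : T_STRM := by
  intro M f H hf N m p q ζ W h0 hN hζ hH hNm hm hW
  -- the first `N` steps
  have ha : ∀ l ≤ N, (f ∘ H)^[l] q = f^[l] (ζ l) := by
    intro l
    induction l with
    | zero => intro _; simp [h0]
    | succ l ih =>
      intro hl
      rw [iterate_succ_apply', ih (by omega), iterate_succ_apply', Function.comp_apply,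
        hζ l (by omega)]
  -- the steps from `N` to `m`
  have hb : ∀ s, N ≤ s → s ≤ m → (f ∘ H)^[s] q = f^[s] p := by
    intro s hs
    induction s, hs using Nat.le_induction with
    | base => intro _; rw [ha N le_rfl, hN]
    | succ s hs ih =>
      intro hsm
      have hz : H (f^[s] p) = f^[s] p := by
        by_contra hne
        obtain ⟨l, hl, x, hx, hxl⟩ := hH _ hne
        have e : f^[s] p = f^[l] (f^[s - l] p) := by
          rw [← iterate_add_apply]
          congr 2
          omega
        rw [e] at hxl
        have h1 : f^[s - l] p = x := hf.iterate l hxl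
        exact hW (s - l) (by omega) (by omega) (h1 ▸ hx)
      rw [iterate_succ_apply', ih (by omega), iterate_succ_apply', Function.comp_apply, hz]
  rw [hb m hNm le_rfl]
  exact hm

end Pool.Agent.H81.CM
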